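import Pool.Agent.Lib.MP_b29421_co.Final

namespace Pool.Agent.Results.MP_b29421_co.PathPowerRamsey

open Pool.Agent.Lib.MP_b29421_co

/-- For every real `C > 1`, all `r ≥ 1` and `t ≥ 1` there is `D` such that for all `n ≥ 1` the
`r`-colour ordered Ramsey number `R` of the `t`-th power of the path on `n` vertices exists and
is at most `D * n ^ (C * r)`. -/
theorem result : ∀ C : ℝ, 1 < C → ∀ r t : ℕ, 1 ≤ r → 1 ≤ t →
    ∃ D : ℝ, ∀ n : ℕ, 1 ≤ n → ∃ R : ℕ, IsLeast {N : ℕ | Arrows r t n N} R ∧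
      (R : ℝ) ≤ D * (n : ℝ) ^ (C * (r : ℝ)) :=
  fun C hC r t hr ht => main_bound C hC r t hr ht

end Pool.Agent.Results.MP_b29421_co.PathPowerRamsey
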